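import Pool.Agent.Helper62.NT.Goals

/-!
# PROJECT NT (MP_8ff381_an), packet KEPT: the choice of the kept points by ranks
-/

set_option autoImplicit false

noncomputable section

namespace Pool.Agent.Helper22.NT.KEPT

open Pool.Agent.Helper62.NT

variable {H : Type} [MetricSpace H]

theorem SK_pred (R : RT H) (A : Set H) (s : ℝ) : ∀ (K : ℕ) (v : H),
    SK R A s (K + 1) v → SK R A s K v := by
  intro K
  induction K with
  | zero => intro v _; trivial
  | succ K ih =>
    intro v h
    refine Set.Infinite.mono ?_ h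
    rintro u' ⟨h1, h2, u, h3, h4, h5, h6⟩
    exact ⟨h1, h2, u, h3, h4, h5, ih u h6⟩

theorem SK_mono (R : RT H) (A : Set H) (s : ℝ) {K L : ℕ} (hKL : K ≤ L) (v : H)
    (h : SK R A s L v) : SK R A s K v := by
  induction L, hKL using Nat.le_induction with
  | base => exact h
  | succ L _ ih => exact ih (SK_pred R A s L v h)

open Classical in
/-- The rank of a node. -/
def rho (R : RT H) (A : Set H) (s : ℝ) (N : ℕ) (v : H) : ℕ :=
  Nat.findGreatest (fun K => SK R A s K v) N

theorem rho_spec (R : RT H) (A : Set H) (s : ℝ) (N : ℕ) (v : H) :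
    SK R A s (rho R A s N v) v := by
  classical
  exact Nat.findGreatest_spec (P := fun K => SK R A s K v) (Nat.zero_le N) trivial

theorem rho_lt (R : RT H) (A : Set H) (s : ℝ) (N : ℕ) (v : H) (h : ¬ SK R A s N v) :
    rho R A s N v < N := by
  classical
  refine lt_of_le_of_ne (Nat.findGreatest_le N) ?_
  intro he
  apply h
  have := rho_spec R A s N v
  rwa [he] at this

theorem not_SK_succ (R : RT H) (A : Set H) (s : ℝ) (N : ℕ) (v : H) (h : ¬ SK R A s N v) :
    ¬ SK R A s (rho R A s N v + 1) v := by
  classical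
  exact Nat.findGreatest_is_greatest (P := fun K => SK R A s K v) (Nat.lt_succ_self _)
    (rho_lt R A s N v h)

/-- Nodes of the scale near `A`. -/
def Nd (R : RT H) (A : Set H) (s : ℝ) (v : H) : Prop :=
  (∃ k : ℕ, 1 ≤ k ∧ R.dep v = k * s) ∧ Near A (s / 8) v

/-- The kept points. -/
def kpt (R : RT H) (A : Set H) (s : ℝ) (N : ℕ) (v : H) : Set H :=
  {u' : H | Nd R A s v ∧ R.le v u' ∧ R.dep u' = R.dep v + s ∧
    ∃ u, R.le u' u ∧ R.dep u = R.dep v + 2 * s ∧ Near A (s / 8) u ∧
      SK R A s (rho R A s N v) u}

theorem t : S_KEPT := by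
  intro H _ R A s N hs hN
  refine ⟨kpt R A s N, ?_, fun v u h => h.2.1, fun v u h => h.2.2.1, ?_⟩
  · intro v
    by_cases hv : Nd R A s v
    · obtain ⟨⟨k, hk1, hk2⟩, hnear⟩ := hv
      have h1 := not_SK_succ R A s N v (hN v k hk1 hk2 hnear)
      have h2 := Set.not_infinite.1 h1
      refine h2.subset ?_
      rintro u' ⟨-, h3, h4, h5⟩
      exact ⟨h3, h4, h5⟩
    · have : kpt R A s N v = ∅ := by
        ext u'
        constructor
        · rintro ⟨h, -⟩
          exact absurd h hv
        · intro h
          exact absurd h (Set.notMem_empty u')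
      rw [this]
      exact Set.finite_empty
  · intro x k hk hdep hnear
    by_contra hcon
    push Not at hcon
    -- the nodes along the path
    have hle : ∀ a : ℝ, a ≤ k + 2 * N → a * s ≤ R.dep x := by
      intro a ha
      exact le_trans (mul_le_mul_of_nonneg_right ha hs.le) hdep
    have hdv : ∀ a : ℝ, 0 ≤ a → a ≤ k + 2 * N → R.dep (R.res x (a * s)) = a * s := by
      intro a ha0 ha
      exact R.dep_res x _ (mul_nonneg ha0 hs.le) (hle a ha)
    have hler : ∀ a b : ℝ, 0 ≤ a → a ≤ b → b ≤ k + 2 * N →
        R.le (R.res x (a * s)) (R.res x (b * s)) := by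
      intro a b ha hab hb
      refine ⟨?_, ?_⟩
      · rw [hdv a ha (hab.trans hb), hdv b (ha.trans hab) hb]
        exact mul_le_mul_of_nonneg_right hab hs.le
      · rw [hdv a ha (hab.trans hb)]
        exact R.res_res x (a * s) (b * s) (mul_nonneg ha hs.le)
          (mul_le_mul_of_nonneg_right hab hs.le) (hle b hb)
    have hk0 : (0 : ℝ) ≤ k := Nat.cast_nonneg k
    have hNd : ∀ i : ℕ, i ≤ N → Nd R A s (R.res x ((k + 2 * i) * s)) := by
      intro i hi
      have hi' : (i : ℝ) ≤ N := by exact_mod_cast hi
      have hi0 : (0 : ℝ) ≤ i := Nat.cast_nonneg i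
      refine ⟨⟨k + 2 * i, by omega, ?_⟩, hnear i hi⟩
      rw [hdv _ (by linarith) (by linarith)]
      push_cast
      ring
    have hstep : ∀ i : ℕ, i < N → rho R A s N (R.res x ((k + 2 * (i + 1 : ℕ)) * s)) <
        rho R A s N (R.res x ((k + 2 * i) * s)) := by
      intro i hi
      have hi' : (i : ℝ) + 1 ≤ N := by exact_mod_cast hi
      have hi0 : (0 : ℝ) ≤ i := Nat.cast_nonneg i
      by_contra hge
      push Not at hge
      apply hcon i hi
      refine ⟨hNd i hi.le, hler _ _ (by linarith) (by linarith) (by linarith), ?_,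
        R.res x ((k + 2 * (i + 1 : ℕ)) * s), ?_, ?_, hnear (i + 1) hi, ?_⟩
      · rw [hdv _ (by linarith) (by linarith), hdv _ (by linarith) (by linarith)]
        ring
      · apply hler _ _ (by linarith)
        · push_cast; linarith
        · push_cast; linarith
      · rw [hdv _ (by push_cast; linarith) (by push_cast; linarith),
          hdv _ (by linarith) (by linarith)]
        push_cast
        ring
      · exact SK_mono R A s hge _ (rho_spec R A s N _)
    have hind : ∀ i : ℕ, i ≤ N → rho R A s N (R.res x ((k + 2 * i) * s)) + i ≤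
        rho R A s N (R.res x ((k + 2 * (0 : ℕ)) * s)) := by
      intro i
      induction i with
      | zero => intro _; exact le_rfl
      | succ i ih =>
        intro hi
        have h1 := ih (by omega)
        have h2 := hstep i (by omega)
        omega
    obtain ⟨⟨k', hk1, hk2⟩, hne⟩ := hNd 0 (Nat.zero_le N)
    have h0 := rho_lt R A s N _ (hN _ k' hk1 hk2 hne)
    have hNN := hind N le_rfl
    omega

end Pool.Agent.Helper22.NT.KEPT
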